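import Mathlib

namespace Pool.Agent.Results.MP_859259_nt.Counter

/-- The binomial coefficient of two integers: the ordinary one when `0 <= y <= x`,
and `0` otherwise. -/
def binomZ (x y : ℤ) : ℕ := if 0 ≤ y ∧ y ≤ x then x.toNat.choose y.toNat else 0

lemma key (p n : ℕ) (hn : 0 < n) : p ∣ ((p + 1) * n - 1).choose n := by
  have h1 : 1 ≤ (p + 1) * n := Nat.mul_pos (by omega) hn
  have e := Nat.choose_mul_succ_eq ((p + 1) * n - 1) n
  rw [Nat.sub_add_cancel h1, show (p + 1) * n - n = p * n by rw [add_mul, one_mul]; omega] at e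
  have e2 : ((p + 1) * n - 1).choose n * (p + 1) = ((p + 1) * n).choose n * p := by
    apply Nat.eq_of_mul_eq_mul_right hn
    rw [mul_assoc, mul_assoc]
    exact e
  have h2 : p ∣ ((p + 1) * n - 1).choose n * (p + 1) := by
    rw [e2]
    exact Dvd.intro_left _ rfl
  have hc : Nat.Coprime p (p + 1) := by simp
  exact hc.dvd_of_dvd_mul_right h2

lemma keyZ (p n : ℕ) (hn : 0 < n) :
    p ∣ binomZ (((p + 1 : ℕ) : ℤ) * n + (-1)) (((1 : ℕ) : ℤ) * n + 0) := by
  unfold binomZ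
  split_ifs with h
  · have h1 : 1 ≤ (p + 1) * n := Nat.mul_pos (by omega) hn
    have e1 : (((p + 1 : ℕ) : ℤ) * n + (-1)).toNat = (p + 1) * n - 1 := by
      have : ((p + 1 : ℕ) : ℤ) * n + (-1) = (((p + 1) * n - 1 : ℕ) : ℤ) := by
        rw [Nat.cast_sub h1]
        push_cast
        ring
      rw [this, Int.toNat_natCast]
    have e2 : (((1 : ℕ) : ℤ) * n + 0).toNat = n := by simp
    rw [e1, e2]
    exact key p n hn
  · exact dvd_zero _

lemma central (m : ℕ) : (2 * m).choose m % 3 = 0 ∨ (2 * m).choose m % 3 = 1 + m % 2 := by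
  induction m using Nat.strong_induction_on with
  | _ m ih =>
    rcases Nat.eq_zero_or_pos m with rfl | hm
    · simp
    have : Fact (Nat.Prime 3) := ⟨Nat.prime_three⟩
    have L := Choose.choose_modEq_choose_mod_mul_choose_div_nat (n := 2 * m) (k := m) (p := 3)
    have ih' := ih (m / 3) (by omega)
    unfold Nat.ModEq at L
    have h3 : m % 3 = 0 ∨ m % 3 = 1 ∨ m % 3 = 2 := by omega
    rcases h3 with h | h | h
    · rw [show 2 * m % 3 = 0 by omega, h, show 2 * m / 3 = 2 * (m / 3) by omega] at L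
      simp only [Nat.choose_self, one_mul] at L
      omega
    · rw [show 2 * m % 3 = 2 by omega, h, show 2 * m / 3 = 2 * (m / 3) by omega] at L
      simp only [Nat.choose_one_right] at L
      have hpar : (m / 3) % 2 = 0 ∧ m % 2 = 1 ∨ (m / 3) % 2 = 1 ∧ m % 2 = 0 := by omega
      rw [L, Nat.mul_mod]
      rcases ih' with h1 | h1
      · rw [h1]
        simp
      · rcases hpar with ⟨h2, h4⟩ | ⟨h2, h4⟩
        · rw [h1, h2, h4]
          simp
        · rw [h1, h2, h4]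
          simp
    · rw [show 2 * m % 3 = 1 by omega, h, Nat.choose_eq_zero_of_lt (by norm_num : 1 < 2)] at L
      omega

theorem result :
    (∀ n : ℕ, ¬ (4 * n).choose (2 * n) ≡ 2 [MOD 3]) ∧
    (∀ p : ℕ, p.Prime → ∃ a b : ℕ, ∃ α β : ℤ, 0 < b ∧ b < a ∧ Nat.gcd p a = 1 ∧
      ∀ n : ℕ, 0 < n → p ∣ binomZ ((a : ℤ) * n + α) ((b : ℤ) * n + β)) ∧
    ¬ (∀ a b : ℕ, ∀ α β : ℤ, ∀ p : ℕ, 0 < b → b < a → p.Prime → Nat.gcd p a = 1 →
      ∀ r : ℕ, r < p →
        {n : ℕ | 0 < n ∧ binomZ ((a : ℤ) * n + α) ((b : ℤ) * n + β) ≡ r [MOD p]}.Infinite) := by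
  refine ⟨fun n hn => ?_, fun p hp => ⟨p + 1, 1, -1, 0, one_pos, by have := hp.pos; omega, by simp,
    fun n hn => keyZ p n hn⟩, fun h => ?_⟩
  · have := central (2 * n)
    rw [show 2 * (2 * n) = 4 * n by ring] at this
    unfold Nat.ModEq at hn
    omega
  have h2 := h 3 1 (-1) 0 2 one_pos (by norm_num) Nat.prime_two (by norm_num) 1 (by norm_num)
  obtain ⟨n, hn, hm⟩ := h2.nonempty
  have h3 := keyZ 2 n hn
  have h4 : (2 + 1 : ℕ) = 3 := rfl
  rw [h4] at h3
  unfold Nat.ModEq at hm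
  omega

end Pool.Agent.Results.MP_859259_nt.Counter
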